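import Pool.Agent.helper93.TV.Spec1

/-!
# MP_29f1cd_al, row tv:H12
-/

set_option autoImplicit false

namespace Pool.Agent.helper93.TV

open BigOperators Finset Matrix

theorem H12_inner {V : Type} [Fintype V] [DecidableEq V] (F : V → V → V → V → ℂ)
    (Y : Matrix (V × V) (V × V) ℂ) (x1 x2 ε : V) (b : V × V × V) :
    ∑ a, L12 (Fm F) (x1, x2, ε) a * L23 Y a b = ∑ a2, F x1 x2 b.1 a2 * Y (a2, ε) b.2 := by
  rw [Fintype.sum_prod_type, Finset.sum_eq_single b.1]
  · rw [Fintype.sum_prod_type]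
    refine Finset.sum_congr rfl fun a2 _ => ?_
    rw [Finset.sum_eq_single ε]
    · simp [L12, L23, Fm]
    · intro a3 _ h3
      simp only [L12]
      rw [if_neg (Ne.symm h3), zero_mul]
    · intro h
      exact absurd (Finset.mem_univ ε) h
  · intro a1 _ h1
    refine Finset.sum_eq_zero fun a _ => ?_
    simp only [L23]
    rw [if_neg h1, mul_zero]
  · intro h
    exact absurd (Finset.mem_univ b.1) h

theorem H12_f2 {V : Type} [Fintype V] [DecidableEq V] (F : V → V → V → V → ℂ)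
    (Y : Matrix (V × V) (V × V) ℂ) (x1 x2 y1 y2 ε : V) :
    f2 F Y (x1, x2, ε) (y1, y2, ε) =
      ∑ b1, ∑ b2, (∑ a2, F x1 x2 b1 a2 * Y (a2, ε) (b2, ε)) * star (F y1 y2 b1 b2) := by
  rw [f2, Matrix.mul_apply, Fintype.sum_prod_type]
  refine Finset.sum_congr rfl fun b1 _ => ?_
  rw [Fintype.sum_prod_type]
  refine Finset.sum_congr rfl fun b2 _ => ?_
  rw [Finset.sum_eq_single ε]
  · rw [Matrix.mul_apply, H12_inner, Matrix.conjTranspose_apply]
    simp [L12, Fm]
  · intro b3 _ h3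
    rw [Matrix.conjTranspose_apply]
    simp only [L12]
    rw [if_neg (Ne.symm h3), star_zero, mul_zero]
  · intro h
    exact absurd (Finset.mem_univ ε) h

theorem H12_g2 {V : Type} [Fintype V] [DecidableEq V] (F : V → V → V → V → ℂ)
    (Z : Matrix V V ℂ) (x y : V × V) :
    g2 F Z x y =
      ∑ b1, ∑ b2, (∑ a2, F x.1 x.2 b1 a2 * Z a2 b2) * star (F y.1 y.2 b1 b2) := by
  rw [g2, Matrix.mul_apply, Fintype.sum_prod_type]
  refine Finset.sum_congr rfl fun b1 _ => ?_
  refine Finset.sum_congr rfl fun b2 _ => ?_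
  rw [Matrix.mul_apply, Matrix.conjTranspose_apply, Fintype.sum_prod_type,
    Finset.sum_eq_single b1]
  · simp [T2, Fm]
  · intro a1 _ h1
    refine Finset.sum_eq_zero fun a _ => ?_
    simp only [T2]
    rw [if_neg h1, mul_zero]
  · intro h
    exact absurd (Finset.mem_univ b1) h

theorem H12 : H12_stmt := by
  intro I V _ _ _ _ D F hF Y hY
  constructor
  · ext x y
    simp only [FD.h3, f1, L23, g1, T2, FD.h2]
    by_cases h : x.1 = y.1
    · simp only [if_pos h]
    · simp only [if_neg h, mul_zero, ite_self, Finset.sum_const_zero]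
  · ext x y
    obtain ⟨x1, x2⟩ := x
    obtain ⟨y1, y2⟩ := y
    rw [H12_g2]
    simp only [FD.h3, FD.h2]
    have key : ∀ b1 b2 a2, F x1 x2 b1 a2 * (((D.gd F)⁻¹ : ℝ) * ∑ γ, if D.t a2 = D.s1 γ then
        D.wt F γ * Y (a2, γ) (b2, γ) else 0) = ∑ γ, ((D.gd F)⁻¹ : ℝ) *
          (if D.t x2 = D.s1 γ then D.wt F γ * (F x1 x2 b1 a2 * Y (a2, γ) (b2, γ)) else 0) := by
      intro b1 b2 a2
      by_cases h0 : F x1 x2 b1 a2 = 0
      · rw [h0, zero_mul]
        symm
        refine Finset.sum_eq_zero fun γ _ => ?_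
        rw [zero_mul, mul_zero, ite_self, mul_zero]
      · have h1 : D.t x2 = D.t a2 := (hF.uf.conn.supp _ _ _ _ h0).1.2.2.2.2.2
        rw [Finset.mul_sum, Finset.mul_sum]
        refine Finset.sum_congr rfl fun γ _ => ?_
        rw [h1]
        by_cases h2 : D.t a2 = D.s1 γ
        · rw [if_pos h2, if_pos h2]
          ring
        · rw [if_neg h2, if_neg h2, mul_zero, mul_zero]
    have e1 : ∀ b1 b2, ∑ a2, F x1 x2 b1 a2 * (((D.gd F)⁻¹ : ℝ) * ∑ γ, if D.t a2 = D.s1 γ then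
        D.wt F γ * Y (a2, γ) (b2, γ) else 0) = ∑ γ, ((D.gd F)⁻¹ : ℝ) *
          (if D.t x2 = D.s1 γ then D.wt F γ * ∑ a2, (F x1 x2 b1 a2 * Y (a2, γ) (b2, γ))
            else 0) := by
      intro b1 b2
      rw [Finset.sum_congr rfl fun a2 _ => key b1 b2 a2, Finset.sum_comm]
      refine Finset.sum_congr rfl fun γ _ => ?_
      by_cases h2 : D.t x2 = D.s1 γ
      · simp only [if_pos h2]
        rw [Finset.mul_sum, Finset.mul_sum]
      · simp only [if_neg h2, mul_zero, Finset.sum_const_zero]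
    rw [Finset.mul_sum]
    have e2 : ∀ ε, ((D.gd F)⁻¹ : ℝ) * (if D.t x2 = D.s1 ε then
        D.wt F ε * f2 F Y (x1, x2, ε) (y1, y2, ε) else 0) =
        ∑ b1, ∑ b2, (((D.gd F)⁻¹ : ℝ) * (if D.t x2 = D.s1 ε then
          D.wt F ε * ∑ a2, (F x1 x2 b1 a2 * Y (a2, ε) (b2, ε)) else 0)) *
            star (F y1 y2 b1 b2) := by
      intro ε
      by_cases h2 : D.t x2 = D.s1 ε
      · simp only [if_pos h2]
        rw [H12_f2, Finset.mul_sum, Finset.mul_sum]
        refine Finset.sum_congr rfl fun b1 _ => ?_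
        rw [Finset.mul_sum, Finset.mul_sum]
        refine Finset.sum_congr rfl fun b2 _ => ?_
        ring
      · simp only [if_neg h2, mul_zero, zero_mul, Finset.sum_const_zero]
    rw [Finset.sum_congr rfl fun ε _ => e2 ε, Finset.sum_comm]
    refine Finset.sum_congr rfl fun b1 _ => ?_
    rw [Finset.sum_comm]
    refine Finset.sum_congr rfl fun b2 _ => ?_
    rw [e1, Finset.sum_mul]

end Pool.Agent.helper93.TV
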